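import Pool.Agent.Helper87.HQ.St

/-!
# Project HQ, module C5: normalisation of the maxima
-/

set_option autoImplicit false

namespace Pool.Agent.Helper99.HQ

open Pool.Agent.Helper87.HQ
open Set

private theorem sol_smul {G : MetricGraph} {α : G.V → ℝ} {κ : ℝ} {A B : G.E → ℝ} {W : G.V → ℝ}
    (h : Sol G α κ A B W) (c : ℝ) :
    Sol G α κ (fun f => c * A f) (fun f => c * B f) (fun v => c * W v) := by
  obtain ⟨h1, h2⟩ := h
  refine ⟨fun f => ?_, fun v => ?_⟩
  · obtain ⟨a, b⟩ := h1 f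
    refine ⟨congrArg (fun t : ℝ => c * t) a, ?_⟩
    simp only
    rw [← b]
    ring
  · have h3 := congrArg (fun t : ℝ => c * t) (h2 v)
    simp only [Finset.mul_sum] at h3
    rw [mul_left_comm, ← h3]
    refine Finset.sum_congr rfl fun f _ => ?_
    split_ifs <;> ring

private theorem fn_smul {G : MetricGraph} {κ : ℝ} {A B : G.E → ℝ} {W : G.V → ℝ} (c : ℝ) (y : G.Pt) :
    fn G κ (fun f => c * A f) (fun f => c * B f) (fun v => c * W v) y = c * fn G κ A B W y := by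
  rcases y with v | ⟨f, x⟩
  · rfl
  · simp only [fn]
    ring

/-- the form of the function on the edge of an interior maximum -/
private theorem form {G : MetricGraph} {κ : ℝ} (hκ : 0 < κ) {A B : G.E → ℝ} {W : G.V → ℝ} (e : G.E) (x : ℝ)
    (hx : x ∈ Ioo (0 : ℝ) (G.len e))
    (hmax : ∀ y, fn G κ A B W y ≤ fn G κ A B W (Sum.inr ⟨e, ⟨x, hx⟩⟩)) :
    A e = fn G κ A B W (Sum.inr ⟨e, ⟨x, hx⟩⟩) * Real.cos (κ * x) ∧
      B e = fn G κ A B W (Sum.inr ⟨e, ⟨x, hx⟩⟩) * Real.sin (κ * x) ∧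
      0 ≤ fn G κ A B W (Sum.inr ⟨e, ⟨x, hx⟩⟩) := by
  have hm : fn G κ A B W (Sum.inr ⟨e, ⟨x, hx⟩⟩) = A e * Real.cos (κ * x) + B e * Real.sin (κ * x) := rfl
  set m := fn G κ A B W (Sum.inr ⟨e, ⟨x, hx⟩⟩) with hmdef
  have hle : ∀ y ∈ Ioo (0 : ℝ) (G.len e), A e * Real.cos (κ * y) + B e * Real.sin (κ * y) ≤ m := by
    intro y hy
    exact hmax (Sum.inr ⟨e, ⟨y, hy⟩⟩)
  have hd : HasDerivAt (fun y : ℝ => A e * Real.cos (κ * y) + B e * Real.sin (κ * y))
      (A e * (-Real.sin (κ * x) * κ) + B e * (Real.cos (κ * x) * κ)) x := by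
    have h1 : HasDerivAt (fun y : ℝ => κ * y) κ x := by
      simpa using (hasDerivAt_id x).const_mul κ
    exact (h1.cos.const_mul (A e)).add (h1.sin.const_mul (B e))
  have hloc : IsLocalMax (fun y : ℝ => A e * Real.cos (κ * y) + B e * Real.sin (κ * y)) x := by
    filter_upwards [Ioo_mem_nhds hx.1 hx.2] with y hy
    rw [← hm]
    exact hle y hy
  have h0 := hloc.hasDerivAt_eq_zero hd
  have h0' : B e * Real.cos (κ * x) = A e * Real.sin (κ * x) := by
    have : κ * (B e * Real.cos (κ * x) - A e * Real.sin (κ * x)) = 0 := by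
      rw [← h0]
      ring
    rcases mul_eq_zero.1 this with h | h
    · exact absurd h hκ.ne'
    · linarith
  have hcs := Real.sin_sq_add_cos_sq (κ * x)
  have hA : A e = m * Real.cos (κ * x) := by
    rw [hm]
    linear_combination (-(A e)) * hcs - Real.sin (κ * x) * h0'
  have hB : B e = m * Real.sin (κ * x) := by
    rw [hm]
    linear_combination (-(B e)) * hcs + Real.cos (κ * x) * h0'
  refine ⟨hA, hB, ?_⟩
  by_contra hneg
  rw [not_le] at hneg
  set d := min ((G.len e - x) / 2) (1 / κ) with hdd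
  have hd1 : 0 < d := lt_min (by have := hx.2; linarith) (by positivity)
  have hd2 : d ≤ (G.len e - x) / 2 := min_le_left _ _
  have hd3 : d ≤ 1 / κ := min_le_right _ _
  have hy : x + d ∈ Ioo (0 : ℝ) (G.len e) := ⟨by have := hx.1; linarith, by have := hx.2; linarith⟩
  have h1 := hle (x + d) hy
  have h2 : A e * Real.cos (κ * (x + d)) + B e * Real.sin (κ * (x + d)) = m * Real.cos (κ * d) := by
    have e1 : κ * d = κ * (x + d) - κ * x := by ring
    rw [e1, Real.cos_sub, hA, hB]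
    ring
  rw [h2] at h1
  have h3 : κ * d ≤ 1 := by
    have := mul_le_mul_of_nonneg_left hd3 hκ.le
    rwa [mul_one_div_cancel hκ.ne'] at this
  have h4 : Real.cos (κ * d) < Real.cos 0 :=
    Real.cos_lt_cos_of_nonneg_of_le_pi le_rfl (by linarith [Real.pi_gt_three]) (by positivity)
  rw [Real.cos_zero] at h4
  nlinarith

/-- **Module C5.** -/
theorem hC5 : StC5 := by
  intro hC2 G α κ e hκ
  by_cases H : ∃ x, ∃ h : x ∈ Ioo (0 : ℝ) (G.len e), ∃ F ∈ G.eigenspace α (κ ^ 2), F ≠ 0 ∧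
      (∀ y, F y ≤ F (Sum.inr ⟨e, ⟨x, h⟩⟩)) ∧ F (Sum.inr ⟨e, ⟨x, h⟩⟩) = 0
  · right
    obtain ⟨x, hx, F, hF, hF0, hmax, hz⟩ := H
    obtain ⟨A, B, W, hS, rfl⟩ := (hC2 G α κ hκ F).1 hF
    obtain ⟨hA, hB, -⟩ := form hκ e x hx hmax
    rw [hz, zero_mul] at hA hB
    refine Subset.antisymm (fun y hy => hy.1) ?_
    intro y hy
    refine ⟨hy, fn G κ A B W, hF, hF0, fun z => ?_⟩
    have e1 : fn G κ A B W (Sum.inr ⟨e, ⟨y, hy⟩⟩) = 0 := by
      simp only [fn, hA, hB]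
      ring
    rw [e1, ← hz]
    exact hmax z
  · left
    refine Subset.antisymm ?_ ?_
    · rintro x ⟨hx, F, hF, hF0, hmax⟩
      obtain ⟨A, B, W, hS, rfl⟩ := (hC2 G α κ hκ F).1 hF
      obtain ⟨hA, hB, hm⟩ := form hκ e x hx hmax
      have hne : fn G κ A B W (Sum.inr ⟨e, ⟨x, hx⟩⟩) ≠ 0 := by
        intro h0
        exact H ⟨x, hx, _, hF, hF0, hmax, h0⟩
      set m := fn G κ A B W (Sum.inr ⟨e, ⟨x, hx⟩⟩) with hmdef
      have hmpos : 0 < m := lt_of_le_of_ne hm (Ne.symm hne)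
      refine ⟨hx, _, _, _, sol_smul hS m⁻¹, ?_, ?_, fun y => ?_⟩
      · rw [hA, ← mul_assoc, inv_mul_cancel₀ hne, one_mul]
      · rw [hB, ← mul_assoc, inv_mul_cancel₀ hne, one_mul]
      · rw [fn_smul]
        have h1 := mul_le_mul_of_nonneg_left (hmax y) (inv_nonneg.2 hmpos.le)
        rwa [inv_mul_cancel₀ hne] at h1
    · rintro x ⟨hx, A, B, W, hS, hA, hB, hle⟩
      have h1 : fn G κ A B W (Sum.inr ⟨e, ⟨x, hx⟩⟩) = 1 := by
        simp only [fn, hA, hB]
        have hcs := Real.sin_sq_add_cos_sq (κ * x)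
        linear_combination hcs
      refine ⟨hx, fn G κ A B W, (hC2 G α κ hκ _).2 ⟨A, B, W, hS, rfl⟩, ?_, fun y => ?_⟩
      · intro h0
        rw [h0] at h1
        exact zero_ne_one h1
      · rw [h1]
        exact hle y

end Pool.Agent.Helper99.HQ
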